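import Pool.Agent.R755.Bal.Core
import Pool.Agent.R755.Bal.Pos

/-!
# Vector balancing in convex bodies with Gaussian barycenter at the origin
-/

set_option autoImplicit false

namespace Pool.Agent.Results.MP_0ffb5f_gt.CenteredBodies

open MeasureTheory ProbabilityTheory Set
open scoped Pointwise

/-- Every `n`-tuple of vectors of the Euclidean unit ball of `ℝⁿ` has a signed sum in `C V`. -/
def Balances (n : ℕ) (V : Set (EuclideanSpace ℝ (Fin n))) (C : ℝ) : Prop :=
  ∀ u : Fin n → EuclideanSpace ℝ (Fin n), (∀ i, ‖u i‖ ≤ 1) →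
    ∃ ε : Fin n → ℝ, (∀ i, ε i = 1 ∨ ε i = -1) ∧ ∑ i, ε i • u i ∈ C • V

/-- The vector balancing constant of the Euclidean unit ball and `V`: the least `C > 0` such that
every `n`-tuple of vectors of the unit ball has a signed sum in `C V`. -/
noncomputable def beta (n : ℕ) (V : Set (EuclideanSpace ℝ (Fin n))) : ℝ :=
  sInf {C : ℝ | 0 < C ∧ Balances n V C}

/-- The bound. -/
noncomputable def g (p : ℝ) : ℝ := 100 * (1 + 8 * √(Real.log (100 / p)) / p)

theorem g_anti : AntitoneOn g (Ioc 0 1) := by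
  intro p hp q hq hpq
  unfold g
  have h1 : √(Real.log (100 / q)) ≤ √(Real.log (100 / p)) := by
    apply Real.sqrt_le_sqrt
    apply Real.log_le_log (div_pos (by norm_num) hq.1)
    exact div_le_div_of_nonneg_left (by norm_num) hp.1 hpq
  have h2 : 8 * √(Real.log (100 / q)) / q ≤ 8 * √(Real.log (100 / p)) / p := by
    apply div_le_div₀ (by positivity) (by linarith) hp.1 hpq
  linarith

theorem result :
    AntitoneOn g (Ioc 0 1) ∧ (∀ p ∈ Ioc (0 : ℝ) 1, 0 ≤ g p) ∧
      ∀ n : ℕ, 1 ≤ n → ∀ V : Set (EuclideanSpace ℝ (Fin n)),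
        IsCompact V → Convex ℝ V → 0 ∈ interior V →
        ∫ x in V, x ∂(stdGaussian (EuclideanSpace ℝ (Fin n))) = 0 →
          Balances n V (g ((stdGaussian (EuclideanSpace ℝ (Fin n))).real V)) ∧
          beta n V ≤ g ((stdGaussian (EuclideanSpace ℝ (Fin n))).real V) := by
  refine ⟨g_anti, ?_, ?_⟩
  · intro p hp
    have h1 : 0 ≤ 8 * √(Real.log (100 / p)) / p := div_nonneg (by positivity) hp.1.le
    unfold g
    linarith
  · intro n _ V hV hc h0 hb
    have hpos : 0 < (stdGaussian (EuclideanSpace ℝ (Fin n))).real V :=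
      Pool.Agent.R755.Bal.gauss_pos V ⟨0, h0⟩
    set p := (stdGaussian (EuclideanSpace ℝ (Fin n))).real V with hp
    have hg : 0 < g p := by
      have h1 : 0 ≤ 8 * √(Real.log (100 / p)) / p := div_nonneg (by positivity) hpos.le
      unfold g
      linarith
    have hbal : Balances n V (g p) := by
      intro u hu
      obtain ⟨ε, h1, h2⟩ := Pool.Agent.R755.Bal.core V hV.isClosed hc p hpos le_rfl 0
        (by rw [hb, smul_zero]) 0 (by simp) u hu
      refine ⟨ε, h1, ?_⟩
      rw [add_zero, add_zero] at h2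
      have h3 : 100 * (1 + 4 * (2 * √(Real.log (100 / p))) / p) = g p := by
        unfold g
        ring
      rw [h3] at h2
      exact (mem_smul_set_iff_inv_smul_mem₀ hg.ne' _ _).mpr h2
    exact ⟨hbal, csInf_le ⟨0, fun C hC => hC.1.le⟩ ⟨hg, hbal⟩⟩

end Pool.Agent.Results.MP_0ffb5f_gt.CenteredBodies
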